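import Pool.Agent.H97.Thr.Dih

/-! The examples with a cyclic group of order four. -/

open Finset

open scoped ComplexOrder Polynomial

namespace Pool.Agent.H97.Thr

open Pool.Agent.H7.HB Pool.Agent.H7.Artin Pool.Agent.H72.Sol Pool.Agent.H31.Thr

set_option linter.unusedSectionVars false

section quad

lemma sq_add_sq_ne {p : ℕ} [Fact p.Prime] (h4 : p % 4 = 3) {x y : ZMod p}
    (h : x ^ 2 + y ^ 2 = 0) : x = 0 ∧ y = 0 := by
  have hns : ¬ IsSquare (-1 : ZMod p) := by
    rw [ZMod.exists_sq_eq_neg_one_iff]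
    exact fun h => h h4
  have hy : y = 0 := by
    by_contra hy
    refine hns ⟨x / y, ?_⟩
    field_simp
    linear_combination -h
  refine ⟨?_, hy⟩
  rw [hy] at h
  simpa using h

lemma irr_quad {p : ℕ} [Fact p.Prime] (h4 : p % 4 = 3) {M : AddSubgroup (Fin 2 → ZMod p)}
    (hW : ∀ v ∈ M, (Wm (1 : (ZMod p)ˣ)).mulVec v ∈ M) : M = ⊥ ∨ M = ⊤ := by
  by_cases h : ∃ v ∈ M, v ≠ 0
  · right
    obtain ⟨v, hv, hv0⟩ := h
    have hN : v 0 ^ 2 + v 1 ^ 2 ≠ 0 := by
      intro h
      obtain ⟨h1, h2⟩ := sq_add_sq_ne h4 h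
      refine hv0 ?_
      ext i
      fin_cases i
      · exact h1
      · exact h2
    have hs : ∀ (c : ZMod p) (w : Fin 2 → ZMod p), w ∈ M → c • w ∈ M := by
      intro c w hw
      have h1 := M.nsmul_mem hw c.val
      have h2 : c.val • w = c • w := by
        conv_rhs => rw [← ZMod.natCast_zmod_val c]
        rw [Nat.cast_smul_eq_nsmul]
      rwa [h2] at h1
    rw [eq_top_iff]
    intro w _
    have h1 := M.add_mem (hs ((w 0 * v 0 + w 1 * v 1) / (v 0 ^ 2 + v 1 ^ 2)) v hv)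
      (hs ((w 1 * v 0 - w 0 * v 1) / (v 0 ^ 2 + v 1 ^ 2)) _ (hW v hv))
    have h2 : ((w 0 * v 0 + w 1 * v 1) / (v 0 ^ 2 + v 1 ^ 2)) • v +
        ((w 1 * v 0 - w 0 * v 1) / (v 0 ^ 2 + v 1 ^ 2)) • (Wm (1 : (ZMod p)ˣ)).mulVec v = w := by
      rw [Wm_mulVec]
      ext i
      fin_cases i
      · simp only [Pi.add_apply, Pi.smul_apply, smul_eq_mul, Fin.zero_eta, Matrix.cons_val_zero,
          inv_one, Units.val_one]
        field_simp
        ring
      · simp only [Pi.add_apply, Pi.smul_apply, smul_eq_mul, Fin.mk_one, Matrix.cons_val_one,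
          Units.val_one, Matrix.cons_val_fin_one]
        field_simp
        ring
    rwa [h2] at h1
  · left
    push Not at h
    rw [eq_bot_iff]
    intro v hv
    rw [AddSubgroup.mem_bot]
    exact h v hv

variable {F : Type} [Field F] {T₀ : Subgroup Fˣ} (α : T₀ →* ℂˣ) {G : Type} [Group G]
  (pr : G →* Matrix.GeneralLinearGroup (Fin 2) F)

/-- the faithful linear character of the cyclic group of order four -/
noncomputable def lamF (hT : -1 ∈ T₀) (hm : IsMon T₀ pr) (g : G) : ℂ :=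
  rho α pr hT hm g 0 0 - Complex.I * rho α pr hT hm g 0 1

lemma lamF_D (hT : -1 ∈ T₀) (hm : IsMon T₀ pr) {g : G} {a : T₀}
    (ha : ((pr g : Matrix.GeneralLinearGroup (Fin 2) F) : Matrix (Fin 2) (Fin 2) F) =
      Dm (a : Fˣ)) : lamF α pr hT hm g = ((α a : ℂˣ) : ℂ) := by
  rw [lamF, rho_D α pr hT hm ha]
  simp

lemma lamF_W (hT : -1 ∈ T₀) (hm : IsMon T₀ pr) {g : G} {a : T₀}
    (ha : ((pr g : Matrix.GeneralLinearGroup (Fin 2) F) : Matrix (Fin 2) (Fin 2) F) =
      Wm (a : Fˣ)) (hα : ((α ⟨-1, hT⟩ : ℂˣ) : ℂ) = -1) (hα2 : ∀ c : T₀, (α c)⁻¹ = α c) :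
    lamF α pr hT hm g = Complex.I * ((α a : ℂˣ) : ℂ) := by
  rw [lamF, rho_W α pr hT hm ha, hα2]
  simp [hα]

lemma rho_eig (hT : -1 ∈ T₀) (hm : IsMon T₀ pr) (hα : ((α ⟨-1, hT⟩ : ℂˣ) : ℂ) = -1)
    (hα2 : ∀ c : T₀, (α c)⁻¹ = α c) (g : G) :
    (rho α pr hT hm g).mulVec ![1, -Complex.I] = lamF α pr hT hm g • ![1, -Complex.I] := by
  rcases hm g with ⟨a, ha⟩ | ⟨a, ha⟩
  · rw [lamF_D α pr hT hm ha, rho_D α pr hT hm ha, hα2]
    ext i
    fin_cases i <;> simp [Matrix.mulVec, dotProduct, Fin.sum_univ_two]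
  · rw [lamF_W α pr hT hm ha hα hα2, rho_W α pr hT hm ha, hα2, Units.val_mul, hα]
    ext i
    fin_cases i
    · simp [Matrix.mulVec, dotProduct, Fin.sum_univ_two, mul_comm]
    · simp only [Matrix.mulVec, dotProduct, Fin.sum_univ_two, Pi.smul_apply, smul_eq_mul]
      simp only [Matrix.of_apply, Matrix.cons_val', Matrix.cons_val_zero, Matrix.cons_val_one,
        Matrix.cons_val_fin_one, Fin.mk_one]
      linear_combination (((α a : ℂˣ) : ℂ)) * Complex.I_sq

/-- the faithful linear character of the cyclic group of order four, as a homomorphism -/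
noncomputable def lamH (hT : -1 ∈ T₀) (hm : IsMon T₀ pr) (hα : ((α ⟨-1, hT⟩ : ℂˣ) : ℂ) = -1)
    (hα2 : ∀ c : T₀, (α c)⁻¹ = α c) : G →* ℂ where
  toFun := lamF α pr hT hm
  map_one' := by
    have h := rho_eig α pr hT hm hα hα2 1
    rw [map_one, Matrix.one_mulVec] at h
    have h0 := congrFun h 0
    simpa using h0.symm
  map_mul' g h := by
    have h1 := rho_eig α pr hT hm hα hα2 (g * h)
    rw [map_mul, ← Matrix.mulVec_mulVec, rho_eig α pr hT hm hα hα2 h, Matrix.mulVec_smul,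
      rho_eig α pr hT hm hα hα2 g] at h1
    have h0 := congrFun h1 0
    simp only [Pi.smul_apply, smul_eq_mul, Matrix.cons_val_zero, mul_one] at h0
    rw [← h0, mul_comm]

end quad

section quadB

theorem bad_quad (p : ℕ) [Fact p.Prime] (h4 : p % 4 = 3) :
    Bad (2 * 2 * Fintype.card (ZMod p) ^ 2 * p) (Fintype.card (ZMod p) * 1) := by
  classical
  have hp3 : 3 ≤ p := by omega
  have hp2 : (2 : ZMod p) ≠ 0 := by
    intro h
    have h1 : ((2 : ℕ) : ZMod p) = 0 := by exact_mod_cast h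
    rw [ZMod.natCast_eq_zero_iff] at h1
    have := Nat.le_of_dvd (by norm_num) h1
    omega
  have ha1 : (-1 : (ZMod p)ˣ) ≠ 1 := by
    intro h
    have h1 := congrArg (Units.val) h
    rw [Units.val_neg, Units.val_one] at h1
    refine hp2 ?_
    linear_combination -h1
  have hao : orderOf (-1 : (ZMod p)ˣ) = 2 := by
    rw [orderOf_eq_iff (by norm_num)]
    refine ⟨by simp, fun m hm hm0 => ?_⟩
    have : m = 1 := by omega
    rw [this, pow_one]
    exact ha1
  set T₀ := Subgroup.zpowers (-1 : (ZMod p)ˣ) with hT₀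
  have hT : (-1 : (ZMod p)ˣ) ∈ T₀ := Subgroup.mem_zpowers _
  obtain ⟨G, _, _, ω, E, Z, Y, ν, pr, x, hG⟩ := exists_fourier (ZMod p) p T₀ hT
  set g : T₀ := ⟨-1, hT⟩ with hg
  have hgo : orderOf g = 2 := by
    rw [hg, Subgroup.orderOf_mk, hao]
  have hgall : ∀ c : T₀, c ∈ Subgroup.zpowers g := by
    intro c
    obtain ⟨j, hj⟩ := Subgroup.mem_zpowers_iff.1 c.2
    exact Subgroup.mem_zpowers_iff.2 ⟨j, Subtype.ext (by rw [Subgroup.coe_zpow, hg]; exact hj)⟩
  have hneg1 : ((-1 : ℂˣ)) ≠ 1 := by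
    intro h
    have h1 := congrArg (Units.val) h
    rw [Units.val_neg, Units.val_one] at h1
    norm_num at h1
  have hζo : orderOf (-1 : ℂˣ) = 2 := by
    rw [orderOf_eq_iff (by norm_num)]
    refine ⟨by simp, fun m hm hm0 => ?_⟩
    have : m = 1 := by omega
    rw [this, pow_one]
    exact hneg1
  set α : T₀ →* ℂˣ := monoidHomOfForallMemZpowers (g := g) hgall (g' := (-1 : ℂˣ))
    (by rw [hζo, hgo]) with hαdef
  have hα : α g = -1 := monoidHomOfForallMemZpowers_apply_gen _ _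
  have hαc : ((α ⟨-1, hT⟩ : ℂˣ) : ℂ) = -1 := by
    rw [← hg, hα, Units.val_neg, Units.val_one]
  have hTsq : ∀ c : T₀, c * c = 1 := by
    intro c
    obtain ⟨j, hj⟩ := Subgroup.mem_zpowers_iff.1 (hgall c)
    have hgg : g * g = 1 := by
      rw [← pow_two, ← hgo, pow_orderOf_eq_one]
    rw [← hj, ← mul_zpow, hgg, one_zpow]
  have hα2 : ∀ c : T₀, (α c)⁻¹ = α c := by
    intro c
    rw [inv_eq_iff_mul_eq_one, ← map_mul, hTsq, map_one]
  have hαn : ∀ c : T₀, ((α c : ℂˣ) : ℂ) = 1 ∨ ((α c : ℂˣ) : ℂ) = -1 := by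
    intro c
    have h1 : ((α c : ℂˣ) : ℂ) * ((α c : ℂˣ) : ℂ) = 1 := by
      rw [← Units.val_mul, ← map_mul, hTsq, map_one, Units.val_one]
    exact mul_self_eq_one_iff.1 h1
  set lam := lamH α pr hT (isMon hG) hαc hα2 with hlam
  have hlamD : ∀ {h : G} {c : T₀}, mt pr h = Dm (c : (ZMod p)ˣ) → lam h = ((α c : ℂˣ) : ℂ) :=
    fun hh => lamF_D α pr hT (isMon hG) hh
  have hlamW : ∀ {h : G} {c : T₀}, mt pr h = Wm (c : (ZMod p)ˣ) →
      lam h = Complex.I * ((α c : ℂˣ) : ℂ) :=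
    fun hh => lamF_W α pr hT (isMon hG) hh hαc hα2
  obtain ⟨d₀, hd₀⟩ := exists_D hG g
  obtain ⟨b, hbY, hb⟩ := exists_Y hG d₀
  rw [hd₀] at hb
  have hH : IsHeis E Z Y ν b := by
    refine isHeis hG hbY hb ha1 (fun M hM => ?_)
    refine irr_quad h4 (fun v hv => ?_)
    obtain ⟨w, hw⟩ := exists_W hG 1
    have := hM w v hv
    rwa [hw, Subgroup.coe_one] at this
  obtain ⟨w₀, hw₀⟩ := exists_W hG 1
  have hcard : Nat.card T₀ = 2 := by rw [hT₀, Nat.card_zpowers, hao]
  have hcY : Nat.card Y = 4 := by rw [hG.card_Y, hcard]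
  have hall : ∀ c : T₀, c = 1 ∨ (c : (ZMod p)ˣ) = -1 := by
    intro c
    have h1 := congrArg (fun t : T₀ => (((t : (ZMod p)ˣ)) : ZMod p)) (hTsq c)
    simp only [Subgroup.coe_mul, Units.val_mul, Subgroup.coe_one, Units.val_one] at h1
    rcases mul_self_eq_one_iff.1 h1 with h | h
    · left
      exact Subtype.ext (Units.ext h)
    · right
      exact Units.ext (by rw [h, Units.val_neg, Units.val_one])
  have key := bad_main hG hT hH (linM lam) (fun e he => ?_) (fun T hET hTT => ?_)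
    (3 * Real.sqrt 5) (fun S hS => ?_) ?_ w₀ ?_
  · rw [Fintype.card_unit, hcard] at key
    exact key
  · refine linM_eq_one ?_
    have h1 := (mt_eq_one_iff hG e).2 he
    rw [hlamD (c := 1) (by rw [Subgroup.coe_one, Dm_one]; exact h1), map_one, Units.val_one]
  · have hW : ∀ t ∈ T, ∀ c : T₀, mt pr t ≠ Wm (c : (ZMod p)ˣ) := by
      intro t₀ ht₀ c₀ hc₀
      refine hTT ?_
      rw [eq_top_iff]
      intro h _
      have hfin : ∀ t ∈ T, mt pr h = mt pr t → h ∈ T := by
        intro t ht hmt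
        have h1 := T.mul_mem (hET (div_mem hG hmt)) ht
        rwa [inv_mul_cancel_right] at h1
      have hDall : ∀ d : T₀, ∃ t ∈ T, mt pr t = Dm (d : (ZMod p)ˣ) := by
        intro d
        rcases hall d with hd | hd
        · exact ⟨1, T.one_mem, by rw [mt_one, hd, Subgroup.coe_one, Dm_one]⟩
        · refine ⟨t₀ * t₀, T.mul_mem ht₀ ht₀, ?_⟩
          rw [mt_mul, hc₀, Wm_mul_Wm, hd, inv_mul_cancel]
      rcases isMon hG h with ⟨d, hd⟩ | ⟨d, hd⟩
      · obtain ⟨t, ht, hmt⟩ := hDall d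
        exact hfin t ht (by rw [hmt]; exact hd)
      · obtain ⟨t, ht, hmt⟩ := hDall (c₀ * d⁻¹)
        refine hfin (t * t₀) (T.mul_mem ht ht₀) ?_
        rw [mt_mul, hmt, hc₀, Dm_mul_Wm, Subgroup.coe_mul, Subgroup.coe_inv, mul_inv_rev, inv_inv,
          inv_mul_cancel_right]
        exact hd
    refine ⟨Unit → ℂ, inferInstance, inferInstance, inferInstance,
      repM ((linM lam).comp T.subtype), fun t => ?_⟩
    rw [repM_char]
    rcases isMon hG (t : G) with ⟨d, hd⟩ | ⟨d, hd⟩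
    · rw [eps_D pr hT (isMon hG) hd]
      change (linM lam t).trace = _
      ring
    · exact absurd hd (hW t t.2 d)
  · have hle : ∀ y : Y, ‖(linM lam y).trace + 1 - eps pr hT (isMon hG) y‖ ≤ Real.sqrt 5 := by
      intro y
      rw [linM_trace]
      refine Real.le_sqrt_of_sq_le ?_
      rw [← Complex.normSq_eq_norm_sq, Complex.normSq_apply]
      rcases isMon hG (y : G) with ⟨d, hd⟩ | ⟨d, hd⟩
      · rw [hlamD hd, eps_D pr hT (isMon hG) hd]
        rcases hαn d with h | h <;> rw [h] <;> norm_num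
      · rw [hlamW hd, eps_W pr hT (isMon hG) hd]
        rcases hαn d with h | h <;> rw [h] <;> norm_num
    refine (Finset.sum_le_sum (fun y _ => hle y)).trans ?_
    rw [Finset.sum_const, nsmul_eq_mul]
    refine mul_le_mul_of_nonneg_right ?_ (Real.sqrt_nonneg _)
    have hfY : Finite Y := inferInstance
    let _ : Fintype Y := Fintype.ofFinite Y
    have h1 : S ⊆ Finset.univ.erase (1 : Y) := by
      intro y hy
      refine Finset.mem_erase.2 ⟨fun h => hS y hy ?_, Finset.mem_univ _⟩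
      rw [h, Subgroup.coe_one]
    have h2 := Finset.card_le_card h1
    rw [Finset.card_erase_of_mem (Finset.mem_univ _), Finset.card_univ,
      ← Nat.card_eq_fintype_card, hcY] at h2
    exact_mod_cast h2
  · rw [Fintype.card_unit, hcY, ZMod.card]
    have h1 : Real.sqrt 5 < 9 / 4 := by
      rw [Real.sqrt_lt' (by norm_num)]
      norm_num
    have h2 : (3 : ℝ) ≤ p := by exact_mod_cast hp3
    push_cast
    linarith
  · rw [eps_W pr hT (isMon hG) hw₀, Matrix.isUnit_iff_isUnit_det, Matrix.det_unique,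
      isUnit_iff_ne_zero]
    have h1 : linM lam w₀ default default = lam w₀ := rfl
    rw [Matrix.sub_apply, Matrix.smul_apply, Matrix.one_apply_eq, h1, hlamW hw₀]
    intro h
    have h2 := congrArg Complex.re h
    rcases hαn 1 with h3 | h3 <;> rw [h3] at h2 <;> norm_num at h2

end quadB

end Pool.Agent.H97.Thr
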