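import Pool.Agent.H97.Thr.Dih

/-! Finite fields generated by a root of unity which is not conjugate to its inverse. -/

open scoped Polynomial IntermediateField

namespace Pool.Agent.H97.Thr

lemma gen_field (F : Type) [Field F] [Fintype F] (p : ℕ) [Fact p.Prime] [Algebra (ZMod p) F]
    {n q : ℕ} (hF : Fintype.card F = p ^ n) (a : Fˣ) (hq : q ∣ orderOf a)
    (hmin : ∀ j, 1 ≤ j → j < n → ¬ q ∣ p ^ j - 1) (y : F) :
    ∃ P : (ZMod p)[X], Polynomial.aeval ((a : Fˣ) : F) P = y := by
  have hfd : FiniteDimensional (ZMod p) F := Module.Finite.of_finite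
  have hfr : Module.finrank (ZMod p) F = n := by
    have h1 := Module.card_eq_pow_finrank (K := ZMod p) (V := F)
    rw [Fintype.card_eq_nat_card] at hF
    rw [← Nat.card_eq_fintype_card, ZMod.card, hF] at h1
    exact (Nat.pow_right_injective (Fact.out : p.Prime).two_le h1).symm
  set K := (ZMod p)⟮((a : Fˣ) : F)⟯ with hK
  have hfinK : Finite K := inferInstance
  let _ : Fintype K := Fintype.ofFinite K
  set j := Module.finrank (ZMod p) K with hj
  have hcK : Fintype.card K = p ^ j := by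
    have h1 := Module.card_eq_pow_finrank (K := ZMod p) (V := K)
    rwa [ZMod.card] at h1
  have hj1 : 1 ≤ j := Module.finrank_pos
  have hjn : j ≤ n := by
    rw [← hfr]
    exact IntermediateField.finrank_le_of_le_right le_top |>.trans
      (le_of_eq IntermediateField.finrank_top')
  have haK : ((a : Fˣ) : F) ∈ K := IntermediateField.mem_adjoin_simple_self _ _
  have hpow : (⟨((a : Fˣ) : F), haK⟩ : K) ^ (p ^ j - 1) = 1 := by
    rw [← hcK]
    refine FiniteField.pow_card_sub_one_eq_one _ ?_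
    intro h
    exact a.ne_zero (congrArg Subtype.val h)
  have hpow' : a ^ (p ^ j - 1) = 1 := by
    apply Units.ext
    have := congrArg (Subtype.val) hpow
    rw [Units.val_pow_eq_pow_val, Units.val_one]
    exact this
  have hdv : q ∣ p ^ j - 1 := hq.trans (orderOf_dvd_of_pow_eq_one hpow')
  have hjn' : j = n := by
    by_contra hne
    exact hmin j hj1 (lt_of_le_of_ne hjn hne) hdv
  have htop : K = ⊤ := by
    apply IntermediateField.eq_of_le_of_finrank_eq le_top
    rw [IntermediateField.finrank_top', hfr]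
    exact hjn'
  have hyK : y ∈ K.toSubalgebra := by
    rw [htop]
    trivial
  rw [hK, IntermediateField.adjoin_simple_toSubalgebra_of_isAlgebraic
    (Algebra.IsAlgebraic.isAlgebraic _), Algebra.adjoin_singleton_eq_range_aeval] at hyK
  obtain ⟨P, hP⟩ := hyK
  exact ⟨P, hP⟩

lemma not_conj (F : Type) [Field F] [Fintype F] (p : ℕ) [Fact p.Prime] [Algebra (ZMod p) F]
    {q : ℕ} (a : Fˣ) (hq : q ∣ orderOf a) (hodd : ∀ i, ¬ q ∣ p ^ i + 1) :
    ∃ m : (ZMod p)[X], Polynomial.aeval (a : F) m = 0 ∧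
      Polynomial.aeval ((a⁻¹ : Fˣ) : F) m ≠ 0 := by
  refine ⟨minpoly (ZMod p) (a : F), minpoly.aeval _ _, fun h => ?_⟩
  obtain ⟨σ, hσ⟩ := minpoly.exists_algEquiv_of_root' (K := ZMod p) (L := F)
    (Algebra.IsAlgebraic.isAlgebraic _) h
  obtain ⟨i, hi⟩ := (FiniteField.bijective_frobeniusAlgEquivOfAlgebraic_pow (ZMod p) F).2 σ
  have h1 : σ (a : F) = (a : F) ^ p ^ (i : ℕ) := by
    rw [← hi]
    simp only
    rw [AlgEquiv.coe_pow, FiniteField.coe_frobeniusAlgEquivOfAlgebraic_iterate, ZMod.card]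
  rw [h1] at hσ
  have h2 : a ^ (p ^ (i : ℕ) + 1) = 1 := by
    apply Units.ext
    rw [Units.val_pow_eq_pow_val, pow_succ, hσ, Units.val_one, ← Units.val_mul, inv_mul_cancel,
      Units.val_one]
  exact hodd i (hq.trans (orderOf_dvd_of_pow_eq_one h2))

end Pool.Agent.H97.Thr
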