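import Pool.Agent.H97.Thr.Four

/-! The examples built from the Fourier transform: conclusion from a matrix representation. -/

open Finset

open scoped ComplexOrder

namespace Pool.Agent.H97.Thr

open Pool.Agent.H7.HB Pool.Agent.H7.Artin Pool.Agent.H72.Sol Pool.Agent.H31.Thr

set_option linter.unusedSectionVars false

section bad

variable {F : Type} [Field F] [Fintype F] {p : ℕ} {T₀ : Subgroup Fˣ} {G : Type} [Group G]
  [Finite G] {ω : Representation ℂ G (F → ℂ)} {E Z Y : Subgroup G} {ν : Z →* ℂˣ}
  {pr : G →* Matrix.GeneralLinearGroup (Fin 2) F} {x : (Fin 2 → F) → G}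

/-- restriction of a representation to a subgroup has the restricted character -/
lemma char_comp {V : Type} [AddCommGroup V] [Module ℂ V] (ρ : Representation ℂ G V)
    (H : Subgroup G) (h : H) :
    Representation.character (ρ.comp H.subtype : Representation ℂ H V) h = ρ.character (h : G) := rfl

/-- multiplicities of linear characters of a subgroup in a product are integers -/
lemma exists_int {V W : Type} [AddCommGroup V] [Module ℂ V] [FiniteDimensional ℂ V]
    [AddCommGroup W] [Module ℂ W] [FiniteDimensional ℂ W] (ρ : Representation ℂ G V)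
    (σ : Representation ℂ G W) (H : Subgroup G) [Fintype H] (lam : H →* ℂˣ) :
    ∃ n : ℤ, ∑ y : H, ρ.character y * σ.character y * (((lam y)⁻¹ : ℂˣ) : ℂ) =
      n * (Fintype.card H : ℂ) := by
  let χ : H →* ℂ := (Units.coeHom ℂ).comp lam
  obtain ⟨n, hn⟩ := vir_character
    (Representation.tprod (ρ.comp H.subtype : Representation ℂ H V)
      (σ.comp H.subtype : Representation ℂ H W)) (Unit → ℂ) (repM (linM χ))
  rw [ipF_eq] at hn
  refine ⟨n, ?_⟩
  unfold ip at hn
  have h0 : (Nat.card H : ℂ) ≠ 0 := card_cne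
  have h1 := congrArg (fun t => (Nat.card H : ℂ) * t) hn
  rw [mul_inv_cancel_left₀ h0] at h1
  rw [← Nat.card_eq_fintype_card, mul_comm (n : ℂ), ← h1]
  refine Finset.sum_congr rfl (fun y _ => ?_)
  rw [Representation.char_tensor, Pi.mul_apply, char_comp, char_comp, repM_char, linM_trace]
  congr 1
  change _ = ((lam y⁻¹ : ℂˣ) : ℂ)
  rw [map_inv]

/-- **Examples from a matrix representation.** -/
theorem bad_main (hG : IsFourier p T₀ ω E Z Y ν pr x) (hT : -1 ∈ T₀) {b : G}
    (hH : IsHeis E Z Y ν b) {ι : Type} [Fintype ι] [DecidableEq ι] (M : G →* Matrix ι ι ℂ)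
    (hME : ∀ e ∈ E, M e = 1)
    (hprop : ∀ T : Subgroup G, E ≤ T → T ≠ ⊤ → ∃ (W : Type) (_ : AddCommGroup W)
      (_ : Module ℂ W) (_ : FiniteDimensional ℂ W) (μ : Representation ℂ T W),
      ∀ t : T, μ.character t = (M t).trace + 1 - eps pr hT (isMon hG) t)
    (C : ℝ) (hbd : ∀ S : Finset Y, (∀ y ∈ S, (y : G) ≠ 1) →
      ∑ y ∈ S, ‖(M y).trace + 1 - eps pr hT (isMon hG) y‖ ≤ C)
    (hC : C < (Fintype.card F : ℝ) * Fintype.card ι + Nat.card Y)
    (g₀ : G) (hg₀ : IsUnit (M g₀ - eps pr hT (isMon hG) g₀ • (1 : Matrix ι ι ℂ))) :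
    Bad (2 * Nat.card T₀ * Fintype.card F ^ 2 * p) (Fintype.card F * Fintype.card ι) := by
  classical
  set ε := eps pr hT (isMon hG) with hε
  have hεE : ∀ e ∈ E, ε e = 1 := by
    intro e he
    refine eps_D (a := 1) pr hT (isMon hG) ?_
    have := (mt_eq_one_iff hG e).2 he
    rw [mt] at this
    rw [this, Subgroup.coe_one, Dm_one]
  have hσc : ∀ g, (repM (addLin M 1)).character g = (M g).trace + 1 := fun g => by
    rw [repM_char, addLin_trace]
    rfl
  have hτc : ∀ g, (repM (linM ε)).character g = ε g := fun g => by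
    rw [repM_char, linM_trace]
  have hneg : ¬ 0 ≤ ipF (fun g => (repM (addLin M 1)).character g - (repM (linM ε)).character g)
      (repM (linM ε)).character := by
    let _ : Fintype G := Fintype.ofFinite G
    rw [ipF_eq]
    unfold ip
    have e1 : ∑ g : G, ((repM (addLin M 1)).character g - (repM (linM ε)).character g) *
        (repM (linM ε)).character g⁻¹ = -(Nat.card G : ℂ) := by
      have e2 := sum_twist_zero M ε g₀ hg₀
      have e3 : ∑ g, ε g⁻¹ = 0 := by
        obtain ⟨w, hw⟩ := exists_W hG 1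
        have hw' := eps_W pr hT (isMon hG) (a := 1) hw
        have e4 := sum_twist_zero (linM (1 : G →* ℂ)) ε w (by
          rw [← hε] at hw'
          rw [hw', Matrix.isUnit_iff_isUnit_det]
          simp [linM, Matrix.det_unique])
        rw [← e4]
        refine Finset.sum_congr rfl (fun g _ => ?_)
        rw [linM_trace, MonoidHom.one_apply, one_mul]
      have e5 : ∀ g, ((repM (addLin M 1)).character g - (repM (linM ε)).character g) *
        (repM (linM ε)).character g⁻¹ = (M g).trace * ε g⁻¹ + ε g⁻¹ - 1 := by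
        intro g
        rw [hσc, hτc, hτc]
        have : ε g * ε g⁻¹ = 1 := by rw [← map_mul, mul_inv_cancel, map_one]
        rw [sub_mul, add_mul, this, one_mul]
      rw [Finset.sum_congr rfl (fun g _ => e5 g), Finset.sum_sub_distrib, Finset.sum_add_distrib, e2,
        e3, add_zero, zero_sub, Finset.sum_const, Finset.card_univ, Nat.card_eq_fintype_card]
      simp
    rw [e1, mul_neg, inv_mul_cancel₀ card_cne]
    intro h
    have := (Complex.le_def.1 h).1
    simp at this
    linarith
  have hYY : ∀ [Fintype Y] (lam : Y →* ℂˣ), ∃ m : ℕ,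
      ∑ y : Y, ω.character y * ((repM (addLin M 1)).character y - (repM (linM ε)).character y) *
        (((lam y)⁻¹ : ℂˣ) : ℂ) = m * (Fintype.card Y : ℂ) := by
    intro _ lam
    obtain ⟨n1, hn1⟩ := exists_int ω (repM (addLin M 1)) Y lam
    obtain ⟨n2, hn2⟩ := exists_int ω (repM (linM ε)) Y lam
    have hS : ∑ y : Y, ω.character y *
        ((repM (addLin M 1)).character y - (repM (linM ε)).character y) *
        (((lam y)⁻¹ : ℂˣ) : ℂ) = ((n1 - n2 : ℤ) : ℂ) * (Fintype.card Y : ℂ) := by
      rw [Int.cast_sub, sub_mul, ← hn1, ← hn2, ← Finset.sum_sub_distrib]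
      refine Finset.sum_congr rfl (fun y _ => ?_)
      rw [mul_sub, sub_mul]
    have hlam : ∀ y : Y, ‖(((lam y)⁻¹ : ℂˣ) : ℂ)‖ = 1 := by
      intro y
      have h1 : (((lam y)⁻¹ : ℂˣ) : ℂ) ^ Fintype.card Y = 1 := by
        rw [← Units.val_pow_eq_pow_val, ← map_inv, ← map_pow, pow_card_eq_one, map_one,
          Units.val_one]
      exact Complex.norm_eq_one_of_pow_eq_one h1 Fintype.card_ne_zero
    have h1 : ω.character 1 = Fintype.card F := by
      rw [Representation.char_one, Module.finrank_fintype_fun_eq_card]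
    have hu1 : (M ((1 : Y) : G)).trace + 1 - ε ((1 : Y) : G) = Fintype.card ι := by
      rw [Subgroup.coe_one, map_one, map_one, Matrix.trace_one]
      ring
    have hsplit : ∑ y : Y, ω.character y *
        ((repM (addLin M 1)).character y - (repM (linM ε)).character y) *
        (((lam y)⁻¹ : ℂˣ) : ℂ) = (Fintype.card F : ℂ) * Fintype.card ι +
        ∑ y ∈ Finset.univ.erase (1 : Y), ω.character y * ((M y).trace + 1 - ε y) *
          (((lam y)⁻¹ : ℂˣ) : ℂ) := by
      rw [← Finset.add_sum_erase _ _ (Finset.mem_univ (1 : Y))]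
      congr 1
      · rw [hσc, hτc, hu1, Subgroup.coe_one, h1, map_one, inv_one, Units.val_one, mul_one]
      · refine Finset.sum_congr rfl (fun y _ => ?_)
        rw [hσc, hτc]
    have hR : ‖∑ y ∈ Finset.univ.erase (1 : Y), ω.character y * ((M y).trace + 1 - ε y) *
          (((lam y)⁻¹ : ℂˣ) : ℂ)‖ ≤ C := by
      refine (norm_sum_le _ _).trans (le_trans (Finset.sum_le_sum (fun y hy => ?_))
        (hbd (Finset.univ.erase (1 : Y)) (fun y hy => ?_)))
      · rw [norm_mul, norm_mul, hlam, mul_one]
        refine mul_le_of_le_one_left (norm_nonneg _) (hG.small y y.2 ?_)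
        intro h
        exact (Finset.mem_erase.1 hy).1 (Subtype.ext h)
      · intro h
        exact (Finset.mem_erase.1 hy).1 (Subtype.ext h)
    rw [hsplit] at hS
    have hre := congrArg Complex.re hS
    rw [Complex.add_re] at hre
    have h3 : ((Fintype.card F : ℂ) * Fintype.card ι).re = (Fintype.card F : ℝ) * Fintype.card ι := by
      have : ((Fintype.card F : ℂ) * Fintype.card ι) =
        (((Fintype.card F : ℝ) * Fintype.card ι : ℝ) : ℂ) := by push_cast; rfl
      rw [this, Complex.ofReal_re]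
    have h4 : (((n1 - n2 : ℤ) : ℂ) * (Fintype.card Y : ℂ)).re =
        ((n1 - n2 : ℤ) : ℝ) * (Fintype.card Y : ℝ) := by
      have : (((n1 - n2 : ℤ) : ℂ) * (Fintype.card Y : ℂ)) =
        ((((n1 - n2 : ℤ) : ℝ) * (Fintype.card Y : ℝ) : ℝ) : ℂ) := by push_cast; rfl
      rw [this, Complex.ofReal_re]
    rw [h3, h4] at hre
    have h5 := (abs_le.1 ((Complex.abs_re_le_norm _).trans hR)).1
    have hYpos : (0 : ℝ) < Fintype.card Y := by exact_mod_cast Fintype.card_pos
    have h6 : (-1 : ℝ) < ((n1 - n2 : ℤ) : ℝ) := by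
      by_contra hcon
      push Not at hcon
      have h7 : ((n1 - n2 : ℤ) : ℝ) * (Fintype.card Y : ℝ) ≤ (-1) * (Fintype.card Y : ℝ) :=
        mul_le_mul_of_nonneg_right hcon hYpos.le
      rw [Nat.card_eq_fintype_card] at hC
      linarith
    have h8 : 0 ≤ n1 - n2 := by
      have : (-1 : ℤ) < n1 - n2 := by exact_mod_cast h6
      omega
    obtain ⟨m, hm⟩ := Int.eq_ofNat_of_zero_le h8
    refine ⟨m, ?_⟩
    rw [hsplit, hS, hm]
    push_cast
    rfl
  have hmain := crit_rep hH ω hG.scalar (fun y _ => hG.avg y) (repM (addLin M 1)) (repM (linM ε))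
    (repM (linM ε)) (fun e he => repM_eq_one (addLin_eq_one (hME e he) rfl))
    (fun e he => repM_eq_one (linM_eq_one (hεE e he)))
    (fun e he => repM_eq_one (linM_eq_one (hεE e he)))
    (fun T hET hT' => by
      obtain ⟨W, i1, i2, i3, μ, hμ⟩ := hprop T hET hT'
      refine ⟨W, i1, i2, i3, μ, fun t => ?_⟩
      rw [hμ, hσc, hτc]) hYY hneg
  obtain ⟨hh, hv, hnp⟩ := hmain
  refine ⟨G, inferInstance, inferInstance, hG.solv, _, ?_, hh, hv, ?_, hnp⟩
  · rw [card_G hG]
    ring
  · rw [hσc, hτc, Representation.char_one, Module.finrank_fintype_fun_eq_card, map_one, map_one,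
      Matrix.trace_one]
    push_cast
    ring

end bad

end Pool.Agent.H97.Thr
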