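import Pool.Agent.H97.Thr.BadMain

/-! The examples with dicyclic, dihedral and quaternion groups. -/

open Finset

open scoped ComplexOrder Polynomial

namespace Pool.Agent.H97.Thr

open Pool.Agent.H7.HB Pool.Agent.H7.Artin Pool.Agent.H72.Sol Pool.Agent.H31.Thr

set_option linter.unusedSectionVars false

section irr

variable {F : Type} [Field F] {p : ℕ} [Algebra (ZMod p) F]

lemma Dm_mulVec (a : Fˣ) (v : Fin 2 → F) :
    (Dm a).mulVec v = ![(a : F) * v 0, ((a⁻¹ : Fˣ) : F) * v 1] := by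
  ext i
  fin_cases i <;> simp [Dm, Matrix.mulVec, dotProduct, Fin.sum_univ_two]

lemma Wm_mulVec (a : Fˣ) (v : Fin 2 → F) :
    (Wm a).mulVec v = ![-((a⁻¹ : Fˣ) : F) * v 1, (a : F) * v 0] := by
  ext i
  fin_cases i <;> simp [Wm, Matrix.mulVec, dotProduct, Fin.sum_univ_two]

lemma poly_stable [NeZero p] {a : Fˣ} {M : AddSubgroup (Fin 2 → F)}
    (hD : ∀ v ∈ M, (Dm a).mulVec v ∈ M) (P : (ZMod p)[X]) (v : Fin 2 → F) (hv : v ∈ M) :
    ![Polynomial.aeval (a : F) P * v 0, Polynomial.aeval ((a⁻¹ : Fˣ) : F) P * v 1] ∈ M := by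
  have hpow : ∀ n : ℕ, ![(a : F) ^ n * v 0, ((a⁻¹ : Fˣ) : F) ^ n * v 1] ∈ M := by
    intro n
    induction n with
    | zero =>
      have : ![(a : F) ^ 0 * v 0, ((a⁻¹ : Fˣ) : F) ^ 0 * v 1] = v := by
        ext i
        fin_cases i <;> simp
      rw [this]
      exact hv
    | succ n ih =>
      have h1 := hD _ ih
      rw [Dm_mulVec] at h1
      have : ![(a : F) ^ (n + 1) * v 0, ((a⁻¹ : Fˣ) : F) ^ (n + 1) * v 1] =
          ![(a : F) * ![(a : F) ^ n * v 0, ((a⁻¹ : Fˣ) : F) ^ n * v 1] 0,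
            ((a⁻¹ : Fˣ) : F) * ![(a : F) ^ n * v 0, ((a⁻¹ : Fˣ) : F) ^ n * v 1] 1] := by
        ext i
        fin_cases i
        · simp [pow_succ', mul_assoc]
        · simp only [pow_succ']
          simp [mul_assoc]
      rw [this]
      exact h1
  induction P using Polynomial.induction_on' with
  | add P Q hP hQ =>
    have := M.add_mem hP hQ
    have h2 : ![Polynomial.aeval (a : F) (P + Q) * v 0,
        Polynomial.aeval ((a⁻¹ : Fˣ) : F) (P + Q) * v 1] =
        ![Polynomial.aeval (a : F) P * v 0, Polynomial.aeval ((a⁻¹ : Fˣ) : F) P * v 1] +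
        ![Polynomial.aeval (a : F) Q * v 0, Polynomial.aeval ((a⁻¹ : Fˣ) : F) Q * v 1] := by
      rw [map_add, map_add]
      ext i
      fin_cases i
      · simp [add_mul]
      · simp only [add_mul]
        rfl
    rw [h2]
    exact this
  | monomial n c =>
    have h1 := M.nsmul_mem (hpow n) c.val
    have hc : algebraMap (ZMod p) F c = ((c.val : ℕ) : F) := by
      conv_lhs => rw [← ZMod.natCast_zmod_val c]
      rw [map_natCast]
    have h2 : ![Polynomial.aeval (a : F) (Polynomial.monomial n c) * v 0,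
        Polynomial.aeval ((a⁻¹ : Fˣ) : F) (Polynomial.monomial n c) * v 1] =
        c.val • ![(a : F) ^ n * v 0, ((a⁻¹ : Fˣ) : F) ^ n * v 1] := by
      rw [Polynomial.aeval_monomial, Polynomial.aeval_monomial, hc]
      ext i
      fin_cases i
      · simp [mul_assoc]
      · simp only [mul_assoc, nsmul_eq_mul, Pi.mul_apply]
        rfl
    rw [h2]
    exact h1

lemma irr_dih [NeZero p] {a : Fˣ} {M : AddSubgroup (Fin 2 → F)}
    (hD : ∀ v ∈ M, (Dm a).mulVec v ∈ M) (hW : ∀ v ∈ M, (Wm (1 : Fˣ)).mulVec v ∈ M)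
    (hgen : ∀ y : F, ∃ P : (ZMod p)[X], Polynomial.aeval ((a⁻¹ : Fˣ) : F) P = y)
    (hm : ∃ m : (ZMod p)[X], Polynomial.aeval (a : F) m = 0 ∧
      Polynomial.aeval ((a⁻¹ : Fˣ) : F) m ≠ 0) : M = ⊥ ∨ M = ⊤ := by
  by_cases h : ∃ v ∈ M, v 1 ≠ 0
  · right
    obtain ⟨v, hv, hv1⟩ := h
    obtain ⟨m, hm0, hm1⟩ := hm
    have h1 := poly_stable hD m v hv
    rw [hm0, zero_mul] at h1
    set c := Polynomial.aeval ((a⁻¹ : Fˣ) : F) m * v 1 with hc
    have hc0 : c ≠ 0 := mul_ne_zero hm1 hv1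
    have h2 : ∀ y : F, ![0, y] ∈ M := by
      intro y
      obtain ⟨P, hP⟩ := hgen (y / c)
      have h3 := poly_stable hD P _ h1
      rw [hP] at h3
      have h4 : ![Polynomial.aeval (a : F) P * ![0, c] 0, y / c * ![0, c] 1] = ![0, y] := by
        ext i
        fin_cases i
        · simp
        · simp [div_mul_cancel₀ y hc0]
      rwa [h4] at h3
    have h5 : ∀ y : F, ![y, 0] ∈ M := by
      intro y
      have h6 := hW _ (h2 (-y))
      rw [Wm_mulVec] at h6
      have h7 : ![-(((1 : Fˣ)⁻¹ : Fˣ) : F) * ![0, -y] 1, ((1 : Fˣ) : F) * ![0, -y] 0] = ![y, 0] := by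
        ext i
        fin_cases i <;> simp
      rwa [h7] at h6
    rw [eq_top_iff]
    intro w _
    have h8 : w = ![w 0, 0] + ![0, w 1] := by
      ext i
      fin_cases i <;> simp
    rw [h8]
    exact M.add_mem (h5 _) (h2 _)
  · left
    push Not at h
    rw [eq_bot_iff]
    intro v hv
    have h0 := h v hv
    have h1 := h _ (hW v hv)
    rw [Wm_mulVec] at h1
    have h2 : v 0 = 0 := by simpa using h1
    rw [AddSubgroup.mem_bot]
    ext i
    fin_cases i
    · exact h2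
    · exact h0

end irr

section gen

variable {F : Type} [Field F]

lemma gen_mem {a : Fˣ} {ℓ : ℕ} (hℓ : ℓ.Prime) (haℓ : a ^ ℓ = -1)
    {ζ : ℂˣ} (hζ : orderOf ζ = ℓ) (α : Subgroup.zpowers a →* ℂˣ)
    (hα : α ⟨a, Subgroup.mem_zpowers a⟩ = ζ) (T₁ : Subgroup (Subgroup.zpowers a))
    (hneg : ∀ c : Subgroup.zpowers a, (c : Fˣ) = -1 → c ∈ T₁)
    (b : Subgroup.zpowers a) (hb : b ∈ T₁) (hαb : α b ≠ 1) : T₁ = ⊤ := by
  set g : Subgroup.zpowers a := ⟨a, Subgroup.mem_zpowers a⟩ with hg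
  have hgl : g ^ ℓ ∈ T₁ := hneg _ (by rw [Subgroup.coe_pow, hg]; exact haℓ)
  obtain ⟨i, hi⟩ := Subgroup.mem_zpowers_iff.1 b.2
  have hbi : b = g ^ i := Subtype.ext (by rw [Subgroup.coe_zpow, hg]; exact hi.symm)
  have hi2 : ¬ (ℓ : ℤ) ∣ i := by
    intro hd
    refine hαb ?_
    rw [hbi, map_zpow, hα, ← orderOf_dvd_iff_zpow_eq_one, hζ]
    exact hd
  have hcop : IsCoprime (ℓ : ℤ) i := by
    rw [Int.isCoprime_iff_gcd_eq_one]
    have hp : Prime (ℓ : ℤ) := Nat.prime_iff_prime_int.1 hℓ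
    exact Int.isCoprime_iff_gcd_eq_one.1 ((Prime.coprime_iff_not_dvd hp).2 hi2)
  obtain ⟨u, v, huv⟩ := hcop
  have hgT : g ∈ T₁ := by
    have h2 : g = (g ^ ℓ) ^ u * (g ^ i) ^ v := by
      rw [← zpow_natCast, ← zpow_mul, ← zpow_mul, ← zpow_add, mul_comm (ℓ : ℤ), mul_comm i, huv,
        zpow_one]
    rw [h2]
    rw [hbi] at hb
    exact T₁.mul_mem (T₁.zpow_mem hgl u) (T₁.zpow_mem hb v)
  rw [eq_top_iff]
  intro c _
  obtain ⟨j, hj⟩ := Subgroup.mem_zpowers_iff.1 c.2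
  have hcj : c = g ^ j := Subtype.ext (by rw [Subgroup.coe_zpow, hg]; exact hj.symm)
  rw [hcj]
  exact T₁.zpow_mem hgT j

theorem bad_dih (F : Type) [Field F] [Fintype F] (p : ℕ) [Fact p.Prime] [CharP F p]
    [Algebra (ZMod p) F] (a : Fˣ) (ℓ : ℕ) (hℓ : ℓ.Prime) (haℓ : a ^ ℓ = -1)
    (hord : ℓ ∣ orderOf a)
    (hgen : ∀ y : F, ∃ P : (ZMod p)[X], Polynomial.aeval ((a⁻¹ : Fˣ) : F) P = y)
    (hm : ∃ m : (ZMod p)[X], Polynomial.aeval (a : F) m = 0 ∧
      Polynomial.aeval ((a⁻¹ : Fˣ) : F) m ≠ 0) :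
    Bad (2 * orderOf a * Fintype.card F ^ 2 * p) (Fintype.card F * 2) := by
  classical
  have ha1 : a ≠ 1 := by
    intro h
    obtain ⟨m, h1, h2⟩ := hm
    rw [h, inv_one] at h2
    rw [h] at h1
    exact h2 h1
  set T₀ := Subgroup.zpowers a with hT₀
  have hT : (-1 : Fˣ) ∈ T₀ := by
    rw [← haℓ]
    exact T₀.pow_mem (Subgroup.mem_zpowers a) ℓ
  obtain ⟨G, _, _, ω, E, Z, Y, ν, pr, x, hG⟩ := exists_fourier F p T₀ hT
  -- the character
  have hℓ0 : ℓ ≠ 0 := hℓ.ne_zero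
  have hζ' := Complex.isPrimitiveRoot_exp ℓ hℓ0
  set ζ : ℂˣ := (hζ'.isUnit hℓ0).unit with hζdef
  have hζ : IsPrimitiveRoot ζ ℓ := by
    rw [← IsPrimitiveRoot.coe_units_iff, hζdef, IsUnit.unit_spec]
    exact hζ'
  have hζo : orderOf ζ = ℓ := hζ.eq_orderOf.symm
  set g : T₀ := ⟨a, Subgroup.mem_zpowers a⟩ with hg
  have hgo : orderOf g = orderOf a := by
    rw [hg, Subgroup.orderOf_mk]
  have hgall : ∀ c : T₀, c ∈ Subgroup.zpowers g := by
    intro c
    obtain ⟨j, hj⟩ := Subgroup.mem_zpowers_iff.1 c.2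
    exact Subgroup.mem_zpowers_iff.2 ⟨j, Subtype.ext (by rw [Subgroup.coe_zpow, hg]; exact hj)⟩
  set α : T₀ →* ℂˣ := monoidHomOfForallMemZpowers (g := g) hgall (g' := ζ)
    (by rw [hζo, hgo]; exact hord) with hαdef
  have hα : α g = ζ := monoidHomOfForallMemZpowers_apply_gen _ _
  have hα1 : ζ ≠ 1 := by
    intro h
    rw [h, orderOf_one] at hζo
    exact hℓ.one_lt.ne hζo
  obtain ⟨g₀, hg₀⟩ := exists_D hG g
  obtain ⟨b, hbY, hb⟩ := exists_Y hG g₀
  rw [hg₀] at hb
  have hH : IsHeis E Z Y ν b := by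
    refine isHeis hG hbY hb ha1 (fun M hM => ?_)
    refine irr_dih (p := p) (a := a) (fun v hv => ?_) (fun v hv => ?_) hgen hm
    · have := hM g₀ v hv
      rwa [hg₀] at this
    · obtain ⟨w, hw⟩ := exists_W hG 1
      have := hM w v hv
      rwa [hw, Subgroup.coe_one] at this
  have hfin : Finite T₀ := inferInstance
  have hcard : Nat.card T₀ = orderOf a := Nat.card_zpowers a
  have hlt : Nat.card T₀ < Fintype.card F := by
    have h1 : Nat.card T₀ ≤ Nat.card Fˣ := Nat.card_le_card_of_injective _ Subtype.val_injective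
    rw [Nat.card_eq_fintype_card (α := Fˣ), Fintype.card_units] at h1
    have := Fintype.card_pos (α := F)
    omega
  have key := bad_main hG hT hH (rho α pr hT (isMon hG)) (fun e he => ?_) (fun T hET hTT => ?_)
    (2 * (Nat.card Y - 1 : ℝ)) (fun S hS => ?_) ?_ g₀ ?_
  · rw [Fintype.card_fin, hcard] at key
    exact key
  · have h1 := (mt_eq_one_iff hG e).2 he
    rw [rho_D (a := 1) α pr hT (isMon hG) (by rw [Subgroup.coe_one, Dm_one]; exact h1), map_one]
    ext i j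
    fin_cases i <;> fin_cases j <;> simp
  · by_cases hW : ∃ t ∈ T, ∃ c : T₀, mt pr t = Wm (c : Fˣ)
    · obtain ⟨t₀, ht₀, c₀, hc₀⟩ := hW
      let T₁ : Subgroup T₀ :=
        { carrier := {c | ∃ t ∈ T, mt pr t = Dm (c : Fˣ)}
          mul_mem' := by
            rintro c d ⟨t, ht, hc⟩ ⟨s, hs, hd⟩
            exact ⟨t * s, T.mul_mem ht hs, by rw [mt_mul, hc, hd, Dm_mul_Dm, Subgroup.coe_mul]⟩
          one_mem' := ⟨1, T.one_mem, by rw [mt_one, Subgroup.coe_one, Dm_one]⟩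
          inv_mem' := by
            rintro c ⟨t, ht, hc⟩
            exact ⟨t⁻¹, T.inv_mem ht, by rw [mt_inv_D hc, Subgroup.coe_inv]⟩ }
      have hT₁ : ∀ c, c ∈ T₁ ↔ ∃ t ∈ T, mt pr t = Dm (c : Fˣ) := fun c => Iff.rfl
      have hneg : ∀ c : T₀, (c : Fˣ) = -1 → c ∈ T₁ := by
        intro c hc
        refine (hT₁ c).2 ⟨t₀ * t₀, T.mul_mem ht₀ ht₀, ?_⟩
        rw [mt_mul, hc₀, Wm_mul_Wm, hc, inv_mul_cancel]
      have hone : ∀ c ∈ T₁, α c = 1 := by
        intro c hc
        by_contra hcon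
        have htop := gen_mem hℓ haℓ hζo α hα T₁ hneg c hc hcon
        refine hTT ?_
        rw [eq_top_iff]
        intro h _
        have hDall : ∀ d : T₀, ∃ t ∈ T, mt pr t = Dm (d : Fˣ) := by
          intro d
          have : d ∈ T₁ := by rw [htop]; trivial
          exact (hT₁ d).1 this
        have hfin : ∀ t ∈ T, mt pr h = mt pr t → h ∈ T := by
          intro t ht hmt
          have h1 := T.mul_mem (hET (div_mem hG hmt)) ht
          rwa [inv_mul_cancel_right] at h1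
        rcases isMon hG h with ⟨d, hd⟩ | ⟨d, hd⟩
        · obtain ⟨t, ht, hmt⟩ := hDall d
          exact hfin t ht (by rw [hmt]; exact hd)
        · obtain ⟨t, ht, hmt⟩ := hDall (c₀ * d⁻¹)
          refine hfin (t * t₀) (T.mul_mem ht ht₀) ?_
          rw [mt_mul, hmt, hc₀, Dm_mul_Wm, Subgroup.coe_mul, Subgroup.coe_inv, mul_inv_rev, inv_inv,
            inv_mul_cancel_right]
          exact hd
      refine ⟨Fin 2 → ℂ, inferInstance, inferInstance, inferInstance,
        repM (1 : T →* Matrix (Fin 2) (Fin 2) ℂ), fun t => ?_⟩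
      rw [repM_char, MonoidHom.one_apply, Matrix.trace_one, Fintype.card_fin]
      rcases isMon hG (t : G) with ⟨d, hd⟩ | ⟨d, hd⟩
      · have hd1 : α d = 1 := hone d ((hT₁ d).2 ⟨t, t.2, hd⟩)
        rw [rho_D α pr hT (isMon hG) hd, eps_D pr hT (isMon hG) hd, hd1]
        simp [Matrix.trace_fin_two]
        norm_num
      · rw [rho_W α pr hT (isMon hG) hd, eps_W pr hT (isMon hG) hd]
        simp [Matrix.trace_fin_two]
        norm_num
    · push Not at hW
      refine ⟨Fin 2 → ℂ, inferInstance, inferInstance, inferInstance,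
        repM ((rho α pr hT (isMon hG)).comp T.subtype), fun t => ?_⟩
      rw [repM_char]
      rcases isMon hG (t : G) with ⟨d, hd⟩ | ⟨d, hd⟩
      · rw [eps_D pr hT (isMon hG) hd]
        change (rho α pr hT (isMon hG) t).trace = _
        ring
      · exact absurd hd (hW t t.2 d)
  · have hle : ∀ y : Y, ‖(rho α pr hT (isMon hG) y).trace + 1 - eps pr hT (isMon hG) y‖ ≤ 2 := by
      intro y
      rcases isMon hG (y : G) with ⟨d, hd⟩ | ⟨d, hd⟩
      · rw [rho_D α pr hT (isMon hG) hd, eps_D pr hT (isMon hG) hd]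
        have h1 : ‖((α d : ℂˣ) : ℂ)‖ = 1 := by
          have h2 : ((α d : ℂˣ) : ℂ) ^ Nat.card T₀ = 1 := by
            rw [← Units.val_pow_eq_pow_val, ← map_pow, pow_card_eq_one', map_one, Units.val_one]
          exact Complex.norm_eq_one_of_pow_eq_one h2 Nat.card_pos.ne'
        rw [Matrix.trace_fin_two]
        simp only [Matrix.of_apply, Matrix.cons_val', Matrix.cons_val_zero, Matrix.cons_val_one]
        rw [add_sub_cancel_right]
        refine (norm_add_le _ _).trans ?_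
        rw [Units.val_inv_eq_inv_val, norm_inv, h1]
        norm_num
      · rw [rho_W α pr hT (isMon hG) hd, eps_W pr hT (isMon hG) hd]
        rw [Matrix.trace_fin_two]
        simp only [Matrix.of_apply, Matrix.cons_val', Matrix.cons_val_zero, Matrix.cons_val_one]
        norm_num
    refine (Finset.sum_le_sum (fun y _ => hle y)).trans ?_
    rw [Finset.sum_const, nsmul_eq_mul, mul_comm]
    refine mul_le_mul_of_nonneg_left ?_ (by norm_num)
    have hfY : Finite Y := inferInstance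
    let _ : Fintype Y := Fintype.ofFinite Y
    have h1 : S ⊆ Finset.univ.erase (1 : Y) := by
      intro y hy
      refine Finset.mem_erase.2 ⟨fun h => hS y hy ?_, Finset.mem_univ _⟩
      rw [h, Subgroup.coe_one]
    have h2 := Finset.card_le_card h1
    rw [Finset.card_erase_of_mem (Finset.mem_univ _), Finset.card_univ,
      ← Nat.card_eq_fintype_card] at h2
    have h3 : 1 ≤ Nat.card Y := Nat.card_pos
    have h4 : ((S.card : ℕ) : ℝ) ≤ ((Nat.card Y - 1 : ℕ) : ℝ) := by exact_mod_cast h2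
    rwa [Nat.cast_sub h3, Nat.cast_one] at h4
  · rw [Fintype.card_fin, hG.card_Y]
    have h1 : (Nat.card T₀ : ℝ) < Fintype.card F := by exact_mod_cast hlt
    push_cast
    linarith
  · rw [rho_D α pr hT (isMon hG) hg₀, eps_D pr hT (isMon hG) hg₀, hα, Matrix.isUnit_iff_isUnit_det,
      Matrix.det_fin_two]
    have h1 : ((ζ : ℂˣ) : ℂ) ≠ 1 := fun h => hα1 (Units.ext h)
    have h2 : (((ζ : ℂˣ) : ℂ))⁻¹ ≠ 1 := fun h => h1 (by rw [← inv_inv ((ζ : ℂˣ) : ℂ), h, inv_one])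
    rw [isUnit_iff_ne_zero]
    simp only [Matrix.sub_apply, Matrix.of_apply, Matrix.cons_val',
      Matrix.cons_val_zero, Matrix.cons_val_one, Matrix.one_apply_eq, one_smul,
      Units.val_inv_eq_inv_val]
    have h3 : ((1 : Matrix (Fin 2) (Fin 2) ℂ) 0 1) = 0 := rfl
    rw [h3, sub_zero, zero_mul, sub_zero]
    exact mul_ne_zero (sub_ne_zero.2 h1) (sub_ne_zero.2 h2)

end gen

end Pool.Agent.H97.Thr
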