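import Pool.Agent.H97.Thr.Mono

/-! The examples built from the Fourier transform: general part. -/

open Finset

open scoped ComplexOrder

namespace Pool.Agent.H97.Thr

open Pool.Agent.H7.HB Pool.Agent.H7.Artin Pool.Agent.H72.Sol Pool.Agent.H31.Thr

set_option linter.unusedSectionVars false

section four

variable {F : Type} [Field F] [Fintype F] {p : ℕ} {T₀ : Subgroup Fˣ} {G : Type} [Group G]
  [Finite G] {ω : Representation ℂ G (F → ℂ)} {E Z Y : Subgroup G} {ν : Z →* ℂˣ}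
  {pr : G →* Matrix.GeneralLinearGroup (Fin 2) F} {x : (Fin 2 → F) → G}

/-- the matrix of an element -/
abbrev mt (pr : G →* Matrix.GeneralLinearGroup (Fin 2) F) (g : G) : Matrix (Fin 2) (Fin 2) F :=
  ((pr g : Matrix.GeneralLinearGroup (Fin 2) F) : Matrix (Fin 2) (Fin 2) F)

lemma mt_mul (g h : G) : mt pr (g * h) = mt pr g * mt pr h := by
  rw [mt, map_mul, Units.val_mul]

lemma mt_one : mt pr 1 = 1 := by
  rw [mt, map_one, Units.val_one]

lemma mt_inv_D {g : G} {a : Fˣ} (h : mt pr g = Dm a) : mt pr g⁻¹ = Dm a⁻¹ := by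
  have h1 : mt pr g * mt pr g⁻¹ = 1 := by rw [← mt_mul, mul_inv_cancel, mt_one]
  have h2 : Dm a⁻¹ * Dm a = 1 := by rw [Dm_mul_Dm, inv_mul_cancel, Dm_one]
  calc mt pr g⁻¹ = Dm a⁻¹ * Dm a * mt pr g⁻¹ := by rw [h2, one_mul]
    _ = Dm a⁻¹ := by rw [mul_assoc, ← h, h1, mul_one]

theorem isMon (hG : IsFourier p T₀ ω E Z Y ν pr x) : IsMon T₀ pr := by
  intro g
  rcases (hG.range (pr g)).1 ⟨g, rfl⟩ with ⟨a, ha, h⟩ | ⟨a, ha, h⟩
  · exact Or.inl ⟨⟨a, ha⟩, h⟩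
  · exact Or.inr ⟨⟨a, ha⟩, h⟩

lemma exists_D (hG : IsFourier p T₀ ω E Z Y ν pr x) (a : T₀) : ∃ g, mt pr g = Dm (a : Fˣ) := by
  have hdet : IsUnit (Dm (a : Fˣ)).det := by simp [Dm, Matrix.det_fin_two]
  let M : Matrix.GeneralLinearGroup (Fin 2) F := Matrix.GeneralLinearGroup.mk'' (Dm (a : Fˣ)) hdet
  obtain ⟨g, hg⟩ := (hG.range M).2 (Or.inl ⟨a, a.2, rfl⟩)
  exact ⟨g, by rw [mt, hg]; rfl⟩

lemma exists_W (hG : IsFourier p T₀ ω E Z Y ν pr x) (a : T₀) : ∃ g, mt pr g = Wm (a : Fˣ) := by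
  have hdet : IsUnit (Wm (a : Fˣ)).det := by simp [Wm, Matrix.det_fin_two]
  let M : Matrix.GeneralLinearGroup (Fin 2) F := Matrix.GeneralLinearGroup.mk'' (Wm (a : Fˣ)) hdet
  obtain ⟨g, hg⟩ := (hG.range M).2 (Or.inr ⟨a, a.2, rfl⟩)
  exact ⟨g, by rw [mt, hg]; rfl⟩

lemma mt_eq_one_iff (hG : IsFourier p T₀ ω E Z Y ν pr x) (g : G) : mt pr g = 1 ↔ g ∈ E := by
  rw [← hG.ker, MonoidHom.mem_ker, mt]
  exact ⟨fun h => Units.ext h, fun h => by rw [h]; rfl⟩

lemma div_mem (hG : IsFourier p T₀ ω E Z Y ν pr x) {g h : G} (hgh : mt pr g = mt pr h) :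
    g * h⁻¹ ∈ E := by
  rw [← hG.ker, MonoidHom.mem_ker, map_mul, map_inv, mul_inv_eq_one]
  exact Units.ext hgh

lemma exists_Y (hG : IsFourier p T₀ ω E Z Y ν pr x) (g : G) : ∃ y ∈ Y, mt pr y = mt pr g := by
  obtain ⟨e, he, y, hy, rfl⟩ := hG.prod g
  refine ⟨y, hy, ?_⟩
  rw [mt_mul, (mt_eq_one_iff hG e).2 he, one_mul]

lemma inj_Y (hG : IsFourier p T₀ ω E Z Y ν pr x) {y z : G} (hy : y ∈ Y) (hz : z ∈ Y)
    (h : mt pr y = mt pr z) : y = z := by
  have h1 : y * z⁻¹ ∈ E ⊓ Y := ⟨div_mem hG h, Y.mul_mem hy (Y.inv_mem hz)⟩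
  rw [hG.disj, Subgroup.mem_bot] at h1
  exact mul_inv_eq_one.1 h1

lemma x_zero (hG : IsFourier p T₀ ω E Z Y ν pr x) : x 0 ∈ Z := (hG.mem_iff 0).2 rfl

lemma x_neg (hG : IsFourier p T₀ ω E Z Y ν pr x) (v : Fin 2 → F) : x v * x (-v) ∈ Z := by
  obtain ⟨z, hz, h⟩ := hG.add v (-v)
  rw [h, add_neg_cancel]
  exact Z.mul_mem hz (x_zero hG)

lemma x_inj (hG : IsFourier p T₀ ω E Z Y ν pr x) {u v : Fin 2 → F} {z : G} (hz : z ∈ Z)
    (h : x u = z * x v) : u = v := by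
  obtain ⟨z', hz', h'⟩ := hG.add u (-v)
  have h1 : x (u + -v) ∈ Z := by
    have h2 : x (u + -v) = z'⁻¹ * (z * (x v * x (-v))) := by
      rw [← mul_assoc z, ← h, h', inv_mul_cancel_left]
    rw [h2]
    exact Z.mul_mem (Z.inv_mem hz') (Z.mul_mem hz (x_neg hG v))
  have h3 := (hG.mem_iff _).1 h1
  rwa [← sub_eq_add_neg, sub_eq_zero] at h3

theorem isHeis (hG : IsFourier p T₀ ω E Z Y ν pr x) {b : G} (hb : b ∈ Y) {a : T₀}
    (ha : mt pr b = Dm (a : Fˣ)) (ha1 : (a : Fˣ) ≠ 1)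
    (hirr : ∀ M : AddSubgroup (Fin 2 → F), (∀ g, ∀ v ∈ M, (mt pr g).mulVec v ∈ M) →
      M = ⊥ ∨ M = ⊤) : IsHeis E Z Y ν b := by
  have hcen : ∀ z ∈ Z, ∀ g : G, g * z = z * g := fun z hz g =>
    Subgroup.mem_center_iff.1 (hG.center hz) g
  refine ⟨hG.normal, hG.center, hG.le, hG.inj, hG.disj, hG.prod, hG.comm, hG.nondeg, ?_, hb, ?_, ?_⟩
  · intro S hZS hSE hSY
    have hxS : ∀ {z s : G}, z ∈ Z → z * s ∈ S → s ∈ S := by
      intro z s hz hs
      have := S.mul_mem (S.inv_mem (hZS hz)) hs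
      rwa [inv_mul_cancel_left] at this
    let M : AddSubgroup (Fin 2 → F) :=
      { carrier := {v | x v ∈ S}
        zero_mem' := hZS (x_zero hG)
        add_mem' := by
          intro u v hu hv
          obtain ⟨z, hz, h⟩ := hG.add u v
          refine hxS hz ?_
          rw [← h]
          exact S.mul_mem hu hv
        neg_mem' := by
          intro v hv
          have h1 := S.mul_mem (S.inv_mem hv) (hZS (x_neg hG v))
          rwa [inv_mul_cancel_left] at h1 }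
    have hM : ∀ v, v ∈ M ↔ x v ∈ S := fun v => Iff.rfl
    have hst : ∀ g, ∀ v ∈ M, (mt pr g).mulVec v ∈ M := by
      intro g v hv
      rw [hM] at hv ⊢
      obtain ⟨z, hz, h⟩ := hG.act g v
      refine hxS hz ?_
      rw [mt] at *
      rw [← h]
      obtain ⟨e, he, y, hy, rfl⟩ := hG.prod g
      have h1 := hSY y hy _ hv
      have h2 := hG.comm e he _ (hSE h1)
      have h3 := S.mul_mem (hZS h2) h1
      have h4 : e * (y * x v * y⁻¹) * e⁻¹ * (y * x v * y⁻¹)⁻¹ * (y * x v * y⁻¹) =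
          e * y * x v * (e * y)⁻¹ := by group
      rwa [h4] at h3
    rcases hirr M hst with h | h
    · left
      refine le_antisymm (fun s hs => ?_) hZS
      obtain ⟨v, z, hz, rfl⟩ := hG.rep s (hSE hs)
      have hv : v ∈ M := hxS hz hs
      rw [h, AddSubgroup.mem_bot] at hv
      rw [hv]
      exact Z.mul_mem hz (x_zero hG)
    · right
      refine le_antisymm hSE (fun e he => ?_)
      obtain ⟨v, z, hz, rfl⟩ := hG.rep e he
      have hv : v ∈ M := by rw [h]; trivial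
      exact S.mul_mem (hZS hz) hv
  · intro y hy
    rcases isMon hG y with ⟨c, hc⟩ | ⟨c, hc⟩
    · refine ⟨1, ?_⟩
      rw [zpow_one, mul_inv_eq_iff_eq_mul]
      refine inj_Y hG (Y.mul_mem hy hb) (Y.mul_mem hb hy) ?_
      rw [mt_mul, mt_mul, ha, mt, hc, Dm_mul_Dm, Dm_mul_Dm, mul_comm]
    · refine ⟨-1, ?_⟩
      rw [zpow_neg_one, mul_inv_eq_iff_eq_mul]
      refine inj_Y hG (Y.mul_mem hy hb) (Y.mul_mem (Y.inv_mem hb) hy) ?_
      rw [mt_mul, mt_mul, ha, mt_inv_D ha, mt, hc, Wm_mul_Dm, Dm_mul_Wm, inv_inv, mul_comm]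
  · intro v hv hvb
    obtain ⟨u, z, hz, rfl⟩ := hG.rep v hv
    obtain ⟨z₁, hz₁, h⟩ := hG.act b u
    have h1 : z * x u * b * (z * x u)⁻¹ * b⁻¹ = x u * (b * x u * b⁻¹)⁻¹ := by
      rw [hcen z hz (x u)|>.symm, mul_inv_rev]
      have h2 : x u * z * b * (z⁻¹ * (x u)⁻¹) * b⁻¹ = x u * (z * b * z⁻¹) * (x u)⁻¹ * b⁻¹ := by group
      have h3 : z * b * z⁻¹ = b := by rw [← hcen z hz b, mul_inv_cancel_right]
      rw [h2, h3]
      group
    rw [h1, h] at hvb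
    have h4 : x u = (x u * (z₁ * x ((mt pr b).mulVec u))⁻¹ * z₁) * x ((mt pr b).mulVec u) := by
      rw [mul_assoc _ z₁, inv_mul_cancel_right]
    have h5 := x_inj hG (Z.mul_mem hvb hz₁) h4
    have h6 : u = 0 := by
      rw [ha] at h5
      have e0 := congrFun h5 0
      have e1 := congrFun h5 1
      simp only [Dm, Matrix.mulVec, dotProduct, Fin.sum_univ_two, Matrix.of_apply,
        Matrix.cons_val_zero, Matrix.cons_val_one, Matrix.cons_val', zero_mul, add_zero,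
        zero_add] at e0 e1
      have ha2 : (((a : Fˣ) : F)) ≠ 1 := fun h => ha1 (Units.ext h)
      have ha3 : ((((a : Fˣ)⁻¹ : Fˣ) : F)) ≠ 1 := fun h => by
        refine ha1 ?_
        rw [← inv_inj, inv_one]
        exact Units.ext h
      funext i
      fin_cases i
      · have : (1 - ((a : Fˣ) : F)) * u 0 = 0 := by linear_combination e0
        rcases mul_eq_zero.1 this with h | h
        · exact absurd (sub_eq_zero.1 h).symm ha2
        · exact h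
      · have : (1 - (((a : Fˣ)⁻¹ : Fˣ) : F)) * u 1 = 0 := by linear_combination e1
        rcases mul_eq_zero.1 this with h | h
        · exact absurd (sub_eq_zero.1 h).symm ha3
        · exact h
    rw [h6]
    exact Z.mul_mem hz (x_zero hG)

lemma card_G (hG : IsFourier p T₀ ω E Z Y ν pr x) :
    Nat.card G = Fintype.card F ^ 2 * p * (2 * Nat.card T₀) := by
  rw [← hG.card_E, ← hG.card_Y, ← Nat.card_prod]
  refine (Nat.card_congr (Equiv.ofBijective (fun q : E × Y => (q.1 : G) * q.2) ⟨?_, ?_⟩)).symm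
  · rintro ⟨⟨e, he⟩, ⟨y, hy⟩⟩ ⟨⟨e', he'⟩, ⟨y', hy'⟩⟩ h
    simp only at h
    have h1 : y = y' := by
      refine inj_Y hG hy hy' ?_
      have h2 := congrArg (mt pr) h
      rwa [mt_mul, mt_mul, (mt_eq_one_iff hG e).2 he, (mt_eq_one_iff hG e').2 he', one_mul,
        one_mul] at h2
    subst h1
    have h3 := mul_right_cancel h
    subst h3
    rfl
  · intro g
    obtain ⟨e, he, y, hy, rfl⟩ := hG.prod g
    exact ⟨(⟨e, he⟩, ⟨y, hy⟩), rfl⟩

/-- twisted sums of matrix representations vanish -/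
lemma sum_twist_zero [Fintype G] {ι : Type} [Fintype ι] [DecidableEq ι] (M : G →* Matrix ι ι ℂ)
    (χ : G →* ℂ) (g₀ : G) (h : IsUnit (M g₀ - χ g₀ • (1 : Matrix ι ι ℂ))) :
    ∑ g, (M g).trace * χ g⁻¹ = 0 := by
  have h1 : M g₀ * ∑ g, χ g⁻¹ • M g = χ g₀ • ∑ g, χ g⁻¹ • M g := by
    rw [Finset.mul_sum, Finset.smul_sum]
    rw [← Equiv.sum_comp (Equiv.mulLeft g₀) (fun g => χ g₀ • χ g⁻¹ • M g)]
    refine Finset.sum_congr rfl (fun g _ => ?_)
    rw [Equiv.coe_mulLeft, smul_smul, ← map_mul, mul_inv_rev, ← mul_assoc]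
    have : g₀ * (g⁻¹ * g₀⁻¹) = (g₀ * g⁻¹ * g₀⁻¹) := by group
    rw [Matrix.mul_smul, ← map_mul]
    congr 1
    rw [map_mul, map_mul, mul_comm (χ g₀), mul_assoc, ← map_mul, mul_inv_cancel, map_one, mul_one]
  have h2 : (M g₀ - χ g₀ • (1 : Matrix ι ι ℂ)) * ∑ g, χ g⁻¹ • M g = 0 := by
    rw [sub_mul, h1, Matrix.smul_mul, one_mul, sub_self]
  have h3 : ∑ g, χ g⁻¹ • M g = 0 := h.mul_right_eq_zero.1 h2
  have h4 := congrArg Matrix.trace h3
  rw [Matrix.trace_zero, Matrix.trace_sum] at h4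
  rw [← h4]
  refine Finset.sum_congr rfl (fun g _ => ?_)
  rw [Matrix.trace_smul, smul_eq_mul, mul_comm]

end four

end Pool.Agent.H97.Thr
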