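import Pool.Agent.H31.Thr.T10_Fourier

/-! Monomial matrices and their representations. -/

open Finset

open scoped ComplexOrder

namespace Pool.Agent.H97.Thr

open Pool.Agent.H7.HB Pool.Agent.H7.Artin Pool.Agent.H72.Sol Pool.Agent.H31.Thr

set_option linter.unusedSectionVars false

section matrices

variable {F : Type} [Field F]

/-- diagonal matrices of determinant one -/
def Dm (a : Fˣ) : Matrix (Fin 2) (Fin 2) F := !![(a : F), 0; 0, ((a⁻¹ : Fˣ) : F)]

/-- antidiagonal matrices of determinant one -/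
def Wm (a : Fˣ) : Matrix (Fin 2) (Fin 2) F := !![0, -((a⁻¹ : Fˣ) : F); (a : F), 0]

lemma Dm_mul_Dm (a b : Fˣ) : Dm a * Dm b = Dm (a * b) := by
  ext i j
  fin_cases i <;> fin_cases j <;> simp [Dm, Matrix.mul_apply, mul_comm]

lemma Dm_mul_Wm (a b : Fˣ) : Dm a * Wm b = Wm (a⁻¹ * b) := by
  ext i j
  fin_cases i <;> fin_cases j <;> simp [Dm, Wm, Matrix.mul_apply, mul_comm]

lemma Wm_mul_Dm (a b : Fˣ) : Wm a * Dm b = Wm (a * b) := by
  ext i j
  fin_cases i <;> fin_cases j <;> simp [Dm, Wm, Matrix.mul_apply, mul_comm]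

lemma Wm_mul_Wm (a b : Fˣ) : Wm a * Wm b = Dm (-(a⁻¹ * b)) := by
  ext i j
  fin_cases i <;> fin_cases j <;> simp [Dm, Wm, Matrix.mul_apply, mul_comm]

lemma Dm_one : Dm (1 : Fˣ) = 1 := by
  ext i j
  fin_cases i <;> fin_cases j <;> simp [Dm]

lemma Dm_inj {a b : Fˣ} (h : Dm a = Dm b) : a = b := by
  have := congrFun (congrFun h 0) 0
  simp only [Dm, Matrix.cons_val_zero, Matrix.of_apply, Matrix.cons_val'] at this
  exact Units.ext this

lemma Wm_inj {a b : Fˣ} (h : Wm a = Wm b) : a = b := by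
  have := congrFun (congrFun h 1) 0
  simp only [Wm, Matrix.cons_val_zero, Matrix.of_apply, Matrix.cons_val', Matrix.cons_val_one] at this
  exact Units.ext this

lemma Dm_ne_Wm (a b : Fˣ) : Dm a ≠ Wm b := by
  intro h
  have := congrFun (congrFun h 0) 0
  simp only [Dm, Wm, Matrix.cons_val_zero, Matrix.of_apply, Matrix.cons_val'] at this
  exact a.ne_zero this

end matrices

section ext

variable {F : Type} [Field F] {T₀ : Subgroup Fˣ} (α : T₀ →* ℂˣ)

open Classical in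
/-- extension of a character by zero -/
noncomputable def ext0 (t : F) : ℂ :=
  if h : ∃ a : T₀, ((a : Fˣ) : F) = t then ((α h.choose : ℂˣ) : ℂ) else 0

lemma ext0_coe (a : T₀) : ext0 α ((a : Fˣ) : F) = ((α a : ℂˣ) : ℂ) := by
  have h : ∃ b : T₀, ((b : Fˣ) : F) = ((a : Fˣ) : F) := ⟨a, rfl⟩
  rw [ext0, dif_pos h]
  have h1 := h.choose_spec
  rw [Subtype.ext (Units.ext h1)]

lemma ext0_zero : ext0 α 0 = 0 := by
  rw [ext0, dif_neg]
  rintro ⟨a, ha⟩
  exact (a : Fˣ).ne_zero ha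

/-- the complex matrix of a diagonal element -/
lemma map_Dm (a : T₀) : (Dm (a : Fˣ)).map (ext0 α) = !![((α a : ℂˣ) : ℂ), 0; 0, (((α a)⁻¹ : ℂˣ) : ℂ)] := by
  have h1 : ((a : Fˣ)⁻¹ : Fˣ) = ((a⁻¹ : T₀) : Fˣ) := rfl
  ext i j
  fin_cases i <;> fin_cases j
  · exact ext0_coe α a
  · exact ext0_zero α
  · exact ext0_zero α
  · change ext0 α (((a : Fˣ)⁻¹ : Fˣ) : F) = (((α a)⁻¹ : ℂˣ) : ℂ)
    rw [h1, ext0_coe, map_inv]

lemma map_Wm (hT : -1 ∈ T₀) (a : T₀) : (Wm (a : Fˣ)).map (ext0 α) =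
    !![0, ((α ⟨-1, hT⟩ * (α a)⁻¹ : ℂˣ) : ℂ); ((α a : ℂˣ) : ℂ), 0] := by
  have h1 : -(((a : Fˣ)⁻¹ : Fˣ) : F) = (((⟨-1, hT⟩ * a⁻¹ : T₀) : Fˣ) : F) := by
    simp
  ext i j
  fin_cases i <;> fin_cases j
  · exact ext0_zero α
  · change ext0 α (-(((a : Fˣ)⁻¹ : Fˣ) : F)) = ((α ⟨-1, hT⟩ * (α a)⁻¹ : ℂˣ) : ℂ)
    rw [h1, ext0_coe, map_mul, map_inv]
  · exact ext0_coe α a
  · exact ext0_zero α

lemma alpha_neg_sq (hT : -1 ∈ T₀) : α ⟨-1, hT⟩ * α ⟨-1, hT⟩ = 1 := by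
  rw [← map_mul]
  have : (⟨-1, hT⟩ * ⟨-1, hT⟩ : T₀) = 1 := by
    apply Subtype.ext
    simp
  rw [this, map_one]

variable {G : Type} [Group G] (pr : G →* Matrix.GeneralLinearGroup (Fin 2) F)

/-- every element acts through a monomial matrix -/
def IsMon (T₀ : Subgroup Fˣ) (pr : G →* Matrix.GeneralLinearGroup (Fin 2) F) : Prop :=
  ∀ g, (∃ a : T₀, ((pr g : Matrix.GeneralLinearGroup (Fin 2) F) : Matrix (Fin 2) (Fin 2) F) =
    Dm (a : Fˣ)) ∨ (∃ a : T₀, ((pr g : Matrix.GeneralLinearGroup (Fin 2) F) :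
      Matrix (Fin 2) (Fin 2) F) = Wm (a : Fˣ))

/-- the two-dimensional monomial representation induced from `α` -/
noncomputable def rho (hT : -1 ∈ T₀) (hm : IsMon T₀ pr) : G →* Matrix (Fin 2) (Fin 2) ℂ where
  toFun g := ((pr g : Matrix.GeneralLinearGroup (Fin 2) F) : Matrix (Fin 2) (Fin 2) F).map (ext0 α)
  map_one' := by
    rw [map_one, Units.val_one, ← Dm_one]
    have := map_Dm α (1 : T₀)
    rw [Subgroup.coe_one] at this
    rw [this, map_one]
    ext i j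
    fin_cases i <;> fin_cases j <;> simp
  map_mul' g g' := by
    have hs := alpha_neg_sq α hT
    set s : ℂˣ := α ⟨-1, hT⟩ with hsdef
    rw [map_mul, Units.val_mul]
    rcases hm g with ⟨a, ha⟩ | ⟨a, ha⟩ <;> rcases hm g' with ⟨b, hb⟩ | ⟨b, hb⟩ <;> rw [ha, hb]
    · rw [Dm_mul_Dm, ← Subgroup.coe_mul, map_Dm, map_Dm, map_Dm, map_mul]
      ext i j
      fin_cases i <;> fin_cases j <;> simp [Matrix.mul_apply, mul_comm]
    · rw [Dm_mul_Wm, ← Subgroup.coe_inv, ← Subgroup.coe_mul, map_Dm, map_Wm α hT, map_Wm α hT,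
        map_mul, map_inv]
      ext i j
      fin_cases i <;> fin_cases j <;> simp [Matrix.mul_apply, mul_comm, mul_left_comm]
    · rw [Wm_mul_Dm, ← Subgroup.coe_mul, map_Dm, map_Wm α hT, map_Wm α hT, map_mul]
      ext i j
      fin_cases i <;> fin_cases j
      · simp [Matrix.mul_apply]
      · simp only [mul_inv]
        simp [Matrix.mul_apply, mul_assoc]
      · simp [Matrix.mul_apply]
      · simp [Matrix.mul_apply]
    · have h1 : -((a : Fˣ)⁻¹ * (b : Fˣ)) = ((⟨-1, hT⟩ * (a⁻¹ * b) : T₀) : Fˣ) := by simp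
      rw [Wm_mul_Wm, h1, map_Dm, map_Wm α hT, map_Wm α hT, map_mul, map_mul, map_inv, ← hsdef]
      have hs' : s⁻¹ = s := inv_eq_of_mul_eq_one_left hs
      ext i j
      fin_cases i <;> fin_cases j
      · simp [Matrix.mul_apply, mul_assoc]
      · simp [Matrix.mul_apply]
      · simp [Matrix.mul_apply]
      · simp only [mul_inv, hs', inv_inv]
        simp [Matrix.mul_apply, mul_comm, mul_left_comm]

lemma rho_D (hT : -1 ∈ T₀) (hm : IsMon T₀ pr) {g : G} {a : T₀}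
    (ha : ((pr g : Matrix.GeneralLinearGroup (Fin 2) F) : Matrix (Fin 2) (Fin 2) F) =
      Dm (a : Fˣ)) : rho α pr hT hm g = !![((α a : ℂˣ) : ℂ), 0; 0, (((α a)⁻¹ : ℂˣ) : ℂ)] := by
  change ((pr g : Matrix.GeneralLinearGroup (Fin 2) F) : Matrix (Fin 2) (Fin 2) F).map _ = _
  rw [ha, map_Dm]

lemma rho_W (hT : -1 ∈ T₀) (hm : IsMon T₀ pr) {g : G} {a : T₀}
    (ha : ((pr g : Matrix.GeneralLinearGroup (Fin 2) F) : Matrix (Fin 2) (Fin 2) F) =
      Wm (a : Fˣ)) : rho α pr hT hm g =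
        !![0, ((α ⟨-1, hT⟩ * (α a)⁻¹ : ℂˣ) : ℂ); ((α a : ℂˣ) : ℂ), 0] := by
  change ((pr g : Matrix.GeneralLinearGroup (Fin 2) F) : Matrix (Fin 2) (Fin 2) F).map _ = _
  rw [ha, map_Wm α hT]

/-- the sign character -/
noncomputable def eps (hT : -1 ∈ T₀) (hm : IsMon T₀ pr) : G →* ℂ :=
  (Matrix.detMonoidHom : Matrix (Fin 2) (Fin 2) ℂ →* ℂ).comp (rho (1 : T₀ →* ℂˣ) pr hT hm)

lemma eps_D (hT : -1 ∈ T₀) (hm : IsMon T₀ pr) {g : G} {a : T₀}
    (ha : ((pr g : Matrix.GeneralLinearGroup (Fin 2) F) : Matrix (Fin 2) (Fin 2) F) =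
      Dm (a : Fˣ)) : eps pr hT hm g = 1 := by
  rw [eps, MonoidHom.comp_apply, rho_D 1 pr hT hm ha, Matrix.coe_detMonoidHom]
  simp [Matrix.det_fin_two]

lemma eps_W (hT : -1 ∈ T₀) (hm : IsMon T₀ pr) {g : G} {a : T₀}
    (ha : ((pr g : Matrix.GeneralLinearGroup (Fin 2) F) : Matrix (Fin 2) (Fin 2) F) =
      Wm (a : Fˣ)) : eps pr hT hm g = -1 := by
  rw [eps, MonoidHom.comp_apply, rho_W 1 pr hT hm ha, Matrix.coe_detMonoidHom]
  simp [Matrix.det_fin_two]

end ext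

section reps

variable {G : Type} [Group G] {ι : Type} [Fintype ι] [DecidableEq ι]

/-- a matrix representation -/
noncomputable def repM (M : G →* Matrix ι ι ℂ) : Representation ℂ G (ι → ℂ) :=
  ((Matrix.toLinAlgEquiv' : Matrix ι ι ℂ ≃ₐ[ℂ] ((ι → ℂ) →ₗ[ℂ] (ι → ℂ))) :
    Matrix ι ι ℂ →* ((ι → ℂ) →ₗ[ℂ] (ι → ℂ))).comp M

lemma repM_char (M : G →* Matrix ι ι ℂ) (g : G) : (repM M).character g = (M g).trace := by
  change LinearMap.trace ℂ (ι → ℂ) (Matrix.toLin' (M g)) = _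
  rw [Matrix.trace_toLin'_eq]

lemma repM_eq_one {M : G →* Matrix ι ι ℂ} {g : G} (h : M g = 1) : repM M g = 1 := by
  change Matrix.toLinAlgEquiv' (M g) = 1
  rw [h, map_one]

/-- the sum of a representation and a linear character -/
noncomputable def addLin (M : G →* Matrix ι ι ℂ) (χ : G →* ℂ) : G →* Matrix (ι ⊕ Unit) (ι ⊕ Unit) ℂ where
  toFun g := Matrix.fromBlocks (M g) 0 0 (Matrix.of fun _ _ => χ g)
  map_one' := by
    rw [map_one, map_one]
    rw [← Matrix.fromBlocks_one]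
    congr 1
  map_mul' g g' := by
    rw [Matrix.fromBlocks_multiply, map_mul]
    congr 1
    · simp
    · simp
    · simp
    · ext i j
      simp [Matrix.mul_apply]

lemma addLin_trace (M : G →* Matrix ι ι ℂ) (χ : G →* ℂ) (g : G) :
    (addLin M χ g).trace = (M g).trace + χ g := by
  change (Matrix.fromBlocks (M g) 0 0 (Matrix.of fun _ _ => χ g)).trace = _
  simp [Matrix.trace]

lemma addLin_eq_one {M : G →* Matrix ι ι ℂ} {χ : G →* ℂ} {g : G} (h : M g = 1) (h' : χ g = 1) :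
    addLin M χ g = 1 := by
  change Matrix.fromBlocks (M g) 0 0 (Matrix.of fun _ _ => χ g) = _
  rw [h, h', ← Matrix.fromBlocks_one]
  congr 1

/-- a linear character as a matrix representation -/
noncomputable def linM (χ : G →* ℂ) : G →* Matrix Unit Unit ℂ where
  toFun g := Matrix.of fun _ _ => χ g
  map_one' := by
    ext i j
    simp
  map_mul' g g' := by
    ext i j
    simp [Matrix.mul_apply]

lemma linM_trace (χ : G →* ℂ) (g : G) : (linM χ g).trace = χ g := by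
  change (Matrix.of fun (_ _ : Unit) => χ g).trace = _
  simp [Matrix.trace]

lemma linM_eq_one {χ : G →* ℂ} {g : G} (h' : χ g = 1) : linM χ g = 1 := by
  change (Matrix.of fun (_ _ : Unit) => χ g) = _
  rw [h']
  ext i j
  simp

end reps

end Pool.Agent.H97.Thr
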